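import Mathlib
import Pool.Agent.LibFF40.Main

/-! # Barnette's conjecture for simple `d`-polytopes with at most `d + 3` facets

The graph of every simple `d`-polytope, `d ≥ 2`, with at most `d + 3` facets has a Hamiltonian cycle. -/

set_option autoImplicit false

namespace Pool.Agent.Results.MP_1d72bc_co.FewFacets

open scoped Classical

/-- `S` is the vertex set of a `d`-polytope in `ℝ^d`: the convex hull of the finite set `S` has interior points and every
point of `S` is a vertex (extreme point) of it -/
def IsPolytope {d : ℕ} (S : Finset (EuclideanSpace ℝ (Fin d))) : Prop :=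
  (interior (convexHull ℝ (S : Set (EuclideanSpace ℝ (Fin d))))).Nonempty ∧
    ∀ s ∈ S, s ∈ Set.extremePoints ℝ (convexHull ℝ (S : Set (EuclideanSpace ℝ (Fin d))))

/-- the graph of the polytope with vertex set `S`: two vertices are adjacent when the segment joining them is an edge
(an exposed face) -/
def polytopeGraph {d : ℕ} (S : Finset (EuclideanSpace ℝ (Fin d))) : SimpleGraph S :=
  SimpleGraph.fromRel (fun x y : S => IsExposed ℝ (convexHull ℝ (S : Set (EuclideanSpace ℝ (Fin d))))
    (segment ℝ (x : EuclideanSpace ℝ (Fin d)) (y : EuclideanSpace ℝ (Fin d))))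

/-- Let `d ≥ 2`, `n ≤ d + 3`, and let `S` be the vertex set of a `d`-polytope `P` in `ℝ^d` which is given by the `n` linear
inequalities `⟨a i, x⟩ ≤ b i` (for instance those of its facets), every vertex of `P` satisfying exactly `d` of them with
equality. Then the graph of `P` has a Hamiltonian cycle. -/
theorem result : ∀ d n : ℕ, 2 ≤ d → n ≤ d + 3 →
    ∀ (S : Finset (EuclideanSpace ℝ (Fin d))) (a : Fin n → EuclideanSpace ℝ (Fin d)) (b : Fin n → ℝ),
      IsPolytope S →
      convexHull ℝ (S : Set (EuclideanSpace ℝ (Fin d))) = {x | ∀ i, inner ℝ (a i) x ≤ b i} →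
      (∀ s ∈ S, {i | inner ℝ (a i) s = b i}.ncard = d) →
      (polytopeGraph S).IsHamiltonian := by
  intro d n hd hn S a b hS h1 h2
  obtain ⟨a', b', h⟩ := LibFF40.pol_of hn hS.1 hS.2 h1 h2
  exact LibFF40.ham hd h

end Pool.Agent.Results.MP_1d72bc_co.FewFacets
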