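import Mathlib
import Pool.Agent.LibFL52.Main

/-! # Barnette's conjecture for simple polytopes dual to order complexes

The graph of every simple `d`-polytope, `d ≥ 2`, whose facets can be partially ordered so that a set of facets has a common
vertex if and only if it is a chain, has a Hamiltonian cycle. -/

set_option autoImplicit false

namespace Pool.Agent.Results.MP_1d72bc_co.FlagGraphs

open scoped Classical

/-- `S` is the vertex set of a `d`-polytope in `ℝ^d`: the convex hull of the finite set `S` has interior points and every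
point of `S` is a vertex (extreme point) of it -/
def IsPolytope {d : ℕ} (S : Finset (EuclideanSpace ℝ (Fin d))) : Prop :=
  (interior (convexHull ℝ (S : Set (EuclideanSpace ℝ (Fin d))))).Nonempty ∧
    ∀ s ∈ S, s ∈ Set.extremePoints ℝ (convexHull ℝ (S : Set (EuclideanSpace ℝ (Fin d))))

/-- the graph of the polytope with vertex set `S`: two vertices are adjacent when the segment joining them is an edge
(an exposed face) -/
def polytopeGraph {d : ℕ} (S : Finset (EuclideanSpace ℝ (Fin d))) : SimpleGraph S :=
  SimpleGraph.fromRel (fun x y : S => IsExposed ℝ (convexHull ℝ (S : Set (EuclideanSpace ℝ (Fin d))))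
    (segment ℝ (x : EuclideanSpace ℝ (Fin d)) (y : EuclideanSpace ℝ (Fin d))))

/-- Let `d ≥ 2`, `Q` a finite partially ordered set, and let `S` be the vertex set of a `d`-polytope `P` in `ℝ^d` which is given by
linear inequalities `⟨a q, x⟩ ≤ b q`, `q ∈ Q`, every vertex of `P` satisfying exactly `d` of them with equality. Suppose that the
inequalities of a subset `C` of `Q` are simultaneously equalities at some vertex of `P` if and only if `C` is a chain of `Q`. Then
the graph of `P` has a Hamiltonian cycle. -/
theorem result : ∀ d : ℕ, 2 ≤ d → ∀ (Q : Type) [Fintype Q] [PartialOrder Q]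
    (S : Finset (EuclideanSpace ℝ (Fin d))) (a : Q → EuclideanSpace ℝ (Fin d)) (b : Q → ℝ),
      IsPolytope S →
      convexHull ℝ (S : Set (EuclideanSpace ℝ (Fin d))) = {x | ∀ q, inner ℝ (a q) x ≤ b q} →
      (∀ s ∈ S, {q | inner ℝ (a q) s = b q}.ncard = d) →
      (∀ C : Set Q, (∃ s ∈ S, ∀ q ∈ C, inner ℝ (a q) s = b q) ↔ IsChain (· ≤ ·) C) →
      (polytopeGraph S).IsHamiltonian := by
  intro d hd Q _ _ S a b hS h1 h2 h3
  have hne : S.Nonempty := by
    obtain ⟨x, hx⟩ := hS.1
    have hx' := interior_subset hx
    by_contra hc
    rw [Finset.not_nonempty_iff_eq_empty] at hc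
    rw [hc] at hx'
    simp at hx'
  exact LibFL52.ham_poset hd ⟨h1, hS.2, hne, h2⟩ h3

end Pool.Agent.Results.MP_1d72bc_co.FlagGraphs
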