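import Mathlib
import Pool.Agent.LibHP88.P5

/-! # Barnette's conjecture for products

Every simple polytope of dimension `d1 + d2`, `d1, d2 ≥ 2`, which is a product of a `d1`-polytope and a `d2`-polytope has
a Hamiltonian graph. -/

set_option autoImplicit false

namespace Pool.Agent.Results.MP_1d72bc_co.Products

open scoped Classical

/-- `S` is the vertex set of a `d`-polytope in `ℝ^d`: the convex hull of the finite set `S` has interior points and every
point of `S` is a vertex (extreme point) of it -/
def IsPolytope {d : ℕ} (S : Finset (EuclideanSpace ℝ (Fin d))) : Prop :=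
  (interior (convexHull ℝ (S : Set (EuclideanSpace ℝ (Fin d))))).Nonempty ∧
    ∀ s ∈ S, s ∈ Set.extremePoints ℝ (convexHull ℝ (S : Set (EuclideanSpace ℝ (Fin d))))

/-- the graph of the polytope with vertex set `S`: two vertices are adjacent when the segment joining them is an edge
(an exposed face) -/
def polytopeGraph {d : ℕ} (S : Finset (EuclideanSpace ℝ (Fin d))) : SimpleGraph S :=
  SimpleGraph.fromRel (fun x y : S => IsExposed ℝ (convexHull ℝ (S : Set (EuclideanSpace ℝ (Fin d))))
    (segment ℝ (x : EuclideanSpace ℝ (Fin d)) (y : EuclideanSpace ℝ (Fin d))))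

/-- the polytope with vertex set `S` is a product of the polytopes with vertex sets `S1`, `S2`: either `S` is the image of
`S1 × S2` under a linear isomorphism, or, more generally, the graph of `S` is isomorphic to the Cartesian product of the
graphs of `S1` and `S2` -/
def IsProductOf {d1 d2 d : ℕ} (S1 : Finset (EuclideanSpace ℝ (Fin d1))) (S2 : Finset (EuclideanSpace ℝ (Fin d2)))
    (S : Finset (EuclideanSpace ℝ (Fin d))) : Prop :=
  (∃ L : (EuclideanSpace ℝ (Fin d1) × EuclideanSpace ℝ (Fin d2)) ≃ₗ[ℝ] EuclideanSpace ℝ (Fin d),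
      (S : Set (EuclideanSpace ℝ (Fin d))) =
        L '' ((S1 : Set (EuclideanSpace ℝ (Fin d1))) ×ˢ (S2 : Set (EuclideanSpace ℝ (Fin d2))))) ∨
    Nonempty (polytopeGraph S ≃g SimpleGraph.boxProd (polytopeGraph S1) (polytopeGraph S2))

/-- Let `d1, d2 ≥ 2` and let `S` be the vertex set of a simple polytope of dimension `d1 + d2` which is a product of a
`d1`-polytope and a `d2`-polytope. Then the graph of `S` has a Hamiltonian cycle. -/
theorem result : ∀ d1 d2 : ℕ, 2 ≤ d1 → 2 ≤ d2 →
    ∀ (S1 : Finset (EuclideanSpace ℝ (Fin d1))) (S2 : Finset (EuclideanSpace ℝ (Fin d2)))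
      (S : Finset (EuclideanSpace ℝ (Fin (d1 + d2)))),
      IsPolytope S1 → IsPolytope S2 → IsPolytope S →
      (∀ v : S, ((polytopeGraph S).neighborSet v).ncard = d1 + d2) →
      IsProductOf S1 S2 S → (polytopeGraph S).IsHamiltonian :=
  fun _ _ hd1 hd2 _ _ _ h1 h2 h hs hp => LibHP88.barnette_prod hd1 hd2 h1 h2 h hs hp

end Pool.Agent.Results.MP_1d72bc_co.Products
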