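import Mathlib
import Pool.Agent.LibTR40.N

/-! # Barnette's conjecture: truncations

(1) If the graph of a simple `d`-polytope `P` has a Hamiltonian cycle, then so has the graph of every polytope which is obtained from
`P` by cutting off a face of codimension at least three. (2) Let `d` be even. For EVERY simple `d`-polytope `P` the polytope
obtained from `P` by cutting off all its vertices has a Hamiltonian graph; in all dimensions this holds if the graph of `P` has a
connected spanning subgraph with even degrees. -/

set_option autoImplicit false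

namespace Pool.Agent.Results.MP_1d72bc_co.Truncation

open scoped Classical

/-- `S` is the vertex set of a `d`-polytope in `ℝ^d`: the convex hull of the finite set `S` has interior points and every
point of `S` is a vertex (extreme point) of it -/
def IsPolytope {d : ℕ} (S : Finset (EuclideanSpace ℝ (Fin d))) : Prop :=
  (interior (convexHull ℝ (S : Set (EuclideanSpace ℝ (Fin d))))).Nonempty ∧
    ∀ s ∈ S, s ∈ Set.extremePoints ℝ (convexHull ℝ (S : Set (EuclideanSpace ℝ (Fin d))))

/-- the graph of the polytope with vertex set `S`: two vertices are adjacent when the segment joining them is an edge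
(an exposed face) -/
def polytopeGraph {d : ℕ} (S : Finset (EuclideanSpace ℝ (Fin d))) : SimpleGraph S :=
  SimpleGraph.fromRel (fun x y : S => IsExposed ℝ (convexHull ℝ (S : Set (EuclideanSpace ℝ (Fin d))))
    (segment ℝ (x : EuclideanSpace ℝ (Fin d)) (y : EuclideanSpace ℝ (Fin d))))

/-- `S` is the vertex set of a `d`-polytope which is given by the linear inequalities `⟨a q, x⟩ ≤ b q`, every vertex satisfying
exactly `d` of them with equality (for a simple `d`-polytope the inequalities of its facets are such a description) -/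
def Simple {d : ℕ} {Q : Type} (a : Q → EuclideanSpace ℝ (Fin d)) (b : Q → ℝ)
    (S : Finset (EuclideanSpace ℝ (Fin d))) : Prop :=
  IsPolytope S ∧ convexHull ℝ (S : Set (EuclideanSpace ℝ (Fin d))) = {x | ∀ q, inner ℝ (a q) x ≤ b q} ∧
    ∀ s ∈ S, {q | inner ℝ (a q) s = b q}.ncard = d

/-- Let `d ≥ 1` and let `S` be the vertex set of a simple `d`-polytope `P` in `ℝ^d`, given by the inequalities `⟨a q, x⟩ ≤ b q`, `q ∈ Q`.
(1) Let `σ` be a set of at least three of these inequalities, and let `S'` be the vertex set of a `d`-polytope `P'` which is the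
intersection of `P` with a halfspace `⟨c, x⟩ ≤ t` whose boundary contains no vertex of `P`; suppose that the vertices of `P` cut off
by the halfspace are exactly those which satisfy all inequalities in `σ` with equality (the vertices of a face of codimension at
least three). If the graph of `P` has a Hamiltonian cycle then so has the graph of `P'`, and every vertex of `P'` satisfies exactly
`d` of the inequalities `⟨a q, x⟩ ≤ b q`, `⟨c, x⟩ ≤ t` with equality (so that the step can be repeated).
(2) Let `S'` be the vertex set of a `d`-polytope `P'` obtained from `P` by cutting off all vertices: `P'` is the set of the points of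
`P` with `⟨c v, x⟩ ≤ t v` for all vertices `v`, where `v` violates the inequality of `v`, and no point of `P` satisfies
`t v ≤ ⟨c v, x⟩` and `t w ≤ ⟨c w, x⟩` for two different vertices `v`, `w`. If `d` is even, or if the graph of `P` has a connected
spanning subgraph `H` all whose degrees are even, then the graph of `P'` has a Hamiltonian cycle. -/
theorem result : ∀ d : ℕ, 1 ≤ d → ∀ (Q : Type) [Fintype Q] (a : Q → EuclideanSpace ℝ (Fin d)) (b : Q → ℝ)
    (S : Finset (EuclideanSpace ℝ (Fin d))), Simple a b S →
    (∀ (S' : Finset (EuclideanSpace ℝ (Fin d))) (c : EuclideanSpace ℝ (Fin d)) (t : ℝ) (σ : Set Q),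
      IsPolytope S' →
      convexHull ℝ (S' : Set (EuclideanSpace ℝ (Fin d))) =
        convexHull ℝ (S : Set (EuclideanSpace ℝ (Fin d))) ∩ {x | inner ℝ c x ≤ t} →
      (∀ s ∈ S, inner ℝ c s ≠ t) →
      3 ≤ σ.ncard →
      (∀ s ∈ S, t < inner ℝ c s ↔ ∀ q ∈ σ, inner ℝ (a q) s = b q) →
      (polytopeGraph S).IsHamiltonian →
      (polytopeGraph S').IsHamiltonian ∧
        ∀ s ∈ S', {q | inner ℝ (a q) s = b q}.ncard + (if inner ℝ c s = t then 1 else 0) = d) ∧
    (∀ (S' : Finset (EuclideanSpace ℝ (Fin d))) (c : S → EuclideanSpace ℝ (Fin d)) (t : S → ℝ),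
      IsPolytope S' →
      convexHull ℝ (S' : Set (EuclideanSpace ℝ (Fin d))) =
        convexHull ℝ (S : Set (EuclideanSpace ℝ (Fin d))) ∩ {x | ∀ v : S, inner ℝ (c v) x ≤ t v} →
      (∀ v : S, t v < inner ℝ (c v) (v : EuclideanSpace ℝ (Fin d))) →
      (∀ x ∈ convexHull ℝ (S : Set (EuclideanSpace ℝ (Fin d))), ∀ v w : S, v ≠ w →
        t v ≤ inner ℝ (c v) x → inner ℝ (c w) x < t w) →
      (Even d ∨ ∃ H : SimpleGraph S, H ≤ polytopeGraph S ∧ H.Connected ∧ ∀ v, Even ((H.neighborSet v).ncard)) →
      (polytopeGraph S').IsHamiltonian) := by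
  intro d hd Q _ a b S hS
  obtain ⟨⟨g1, g2⟩, g3, g4⟩ := hS
  refine ⟨fun S' c t σ hS' h3 h4 h5 h6 hH => LibTR40.main hd g1 g2 hS'.1 hS'.2 g3 g4 h3 h4 h5 h6 hH,
    fun S' c t hS' h3 h4 h5 h6 => ?_⟩
  rcases h6 with h6 | ⟨H, hH, hHc, hHe⟩
  · exact LibTR40.main_even hd h6 g1 g2 hS'.1 hS'.2 g3 g4 h3 h4 h5
  · exact LibTR40.main_all hd g1 g2 hS'.1 hS'.2 g3 g4 h3 h4 h5 H hH hHc hHe

end Pool.Agent.Results.MP_1d72bc_co.Truncation
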